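import Pool.Agent.Helper33.KD4.Final

/-!
`MP_019250_an`: kinetic Krylov–Safonov estimate for kernels of bounded variation in scale.

The definitions are for a Euclidean space `E`; in the theorem `E` is `ℝ^d` with the Euclidean norm.
-/

set_option autoImplicit false

namespace Pool.Agent.Results.MP_019250_an.KineticHoelderBV

open MeasureTheory Filter Topology

section

variable (E : Type) [NormedAddCommGroup E] [InnerProductSpace ℝ E] [MeasurableSpace E]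

/-- the open set `(0,1) × B_1 × B_1` -/
def DE : Set (ℝ × E × E) := {p | 0 < p.1 ∧ p.1 < 1 ∧ ‖p.2.1‖ < 1 ∧ ‖p.2.2‖ < 1}

/-- `Q = (1/2,1) × B_{1/2} × B_{1/2}` -/
def QE : Set (ℝ × E × E) := {p | 1 / 2 < p.1 ∧ p.1 < 1 ∧ ‖p.2.1‖ < 1 / 2 ∧ ‖p.2.2‖ < 1 / 2}

variable {E}

/-- the kinetic distance -/
noncomputable def dl (s : ℝ) (z z' : ℝ × E × E) : ℝ :=
  ⨅ w : E, max (max (|z.1 - z'.1| ^ (1 / (2 * s)))
    (‖z.2.1 - z'.2.1 - (z.1 - z'.1) • w‖ ^ (1 / (1 + 2 * s)))) (max ‖z.2.2 - w‖ ‖z'.2.2 - w‖)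

/-- `f` is classical: `f`, `∂_t f`, `∇_x f`, `∇_v f`, `D_v² f` exist and are continuous on
`(0,1) × B_1 × B_1` -/
structure RegE (f : ℝ → E → E → ℝ) : Prop where
  cf : ContinuousOn (fun p : ℝ × E × E => f p.1 p.2.1 p.2.2) (DE E)
  dt : ∀ p ∈ DE E, DifferentiableAt ℝ (fun t => f t p.2.1 p.2.2) p.1
  dx : ∀ p ∈ DE E, DifferentiableAt ℝ (fun x => f p.1 x p.2.2) p.2.1
  dv : ∀ p ∈ DE E, DifferentiableAt ℝ (f p.1 p.2.1) p.2.2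
  dvv : ∀ p ∈ DE E, DifferentiableAt ℝ (fderiv ℝ (f p.1 p.2.1)) p.2.2
  ct : ContinuousOn (fun p : ℝ × E × E => deriv (fun t => f t p.2.1 p.2.2) p.1) (DE E)
  cx : ContinuousOn (fun p : ℝ × E × E => fderiv ℝ (fun x => f p.1 x p.2.2) p.2.1) (DE E)
  cv : ContinuousOn (fun p : ℝ × E × E => fderiv ℝ (f p.1 p.2.1) p.2.2) (DE E)
  cvv : ContinuousOn (fun p : ℝ × E × E => fderiv ℝ (fderiv ℝ (f p.1 p.2.1)) p.2.2) (DE E)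

/-- admissible kernels `K(t,x,v,v')` on `(0,1) × B_1 × B_1`: measurable, symmetric, pointwise
elliptic of order `2s`, and of bounded variation in scale; `d` is the dimension of `E` -/
structure KernE (d : ℕ) (s lam Lam M : ℝ) (K : ℝ → E → E → E → ℝ) : Prop where
  meas : ∀ p ∈ DE E, Measurable (K p.1 p.2.1 p.2.2)
  symm : ∀ p ∈ DE E, ∀ w, K p.1 p.2.1 p.2.2 (p.2.2 - w) = K p.1 p.2.1 p.2.2 (p.2.2 + w)
  lo : ∀ p ∈ DE E, ∀ v', v' ≠ p.2.2 →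
    lam ≤ ‖v' - p.2.2‖ ^ ((d : ℝ) + 2 * s) * K p.1 p.2.1 p.2.2 v'
  hi : ∀ p ∈ DE E, ∀ v', v' ≠ p.2.2 →
    ‖v' - p.2.2‖ ^ ((d : ℝ) + 2 * s) * K p.1 p.2.1 p.2.2 v' ≤ Lam
  bv : ∀ p ∈ DE E, ∀ w : E, 0 < ‖w‖ → ‖w‖ ≤ 1 → ∀ n : ℕ,
    ∑ j ∈ Finset.range n,
      |‖(1 / 2 : ℝ) ^ (j + 1) • w‖ ^ ((d : ℝ) + 2 * s) *
          K p.1 p.2.1 p.2.2 (p.2.2 + (1 / 2 : ℝ) ^ (j + 1) • w) -
        ‖(1 / 2 : ℝ) ^ j • w‖ ^ ((d : ℝ) + 2 * s) *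
          K p.1 p.2.1 p.2.2 (p.2.2 + (1 / 2 : ℝ) ^ j • w)| ≤ M

/-- the equation `∂_t f + v·∇_x f = p.v. ∫ (f(t,x,v') - f(t,x,v)) K(t,x,v,v') dv' + h` at every point
of `(0,1) × B_1 × B_1`; `μ` is the Lebesgue measure `dv'` -/
def Solves (μ : Measure E) (K : ℝ → E → E → E → ℝ) (f h : ℝ → E → E → ℝ) : Prop :=
  ∀ p ∈ DE E, Tendsto (fun ε : ℝ => ∫ v' in {v' : E | ε ≤ ‖v' - p.2.2‖},
      (f p.1 p.2.1 v' - f p.1 p.2.1 p.2.2) * K p.1 p.2.1 p.2.2 v' ∂μ) (𝓝[>] 0)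
    (𝓝 (deriv (fun t => f t p.2.1 p.2.2) p.1 + fderiv ℝ (fun x => f p.1 x p.2.2) p.2.1 p.2.2 -
      h p.1 p.2.1 p.2.2))

end

/-- `ℝ^d` with the Euclidean norm -/
abbrev Ed (d : ℕ) : Type := EuclideanSpace ℝ (Fin d)

/-- Hölder estimate for classical solutions of
`∂_t f + v·∇_x f = p.v. ∫ (f(t,x,v') - f(t,x,v)) K(t,x,v,v') dv' + h` on `(0,1) × B_1 × B_1`. -/
theorem result (d : ℕ) (hd : 1 ≤ d) (s lam Lam M : ℝ) (hs : 0 < s) (hs1 : s < 1)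
    (hlam : 0 < lam) (hLam : lam ≤ Lam) (hM : 0 ≤ M) :
    ∃ α C : ℝ, 0 < α ∧ 0 < C ∧ ∀ (K : ℝ → Ed d → Ed d → Ed d → ℝ) (f h : ℝ → Ed d → Ed d → ℝ)
      (A B : ℝ), KernE d s lam Lam M K →
      (∀ t x, 0 < t → t < 1 → ‖x‖ < 1 → Measurable (f t x)) →
      (∀ t x v, 0 < t → t < 1 → ‖x‖ < 1 → |f t x v| ≤ A) →
      (∀ p ∈ DE (Ed d), |h p.1 p.2.1 p.2.2| ≤ B) → RegE f → Solves volume K f h →
      ∀ z ∈ QE (Ed d), ∀ z' ∈ QE (Ed d),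
        |f z.1 z.2.1 z.2.2 - f z'.1 z'.2.1 z'.2.2| ≤ C * (A + B) * dl s z z' ^ α := by
  obtain ⟨α, C, hα, hC, H⟩ := KD.IV.kinetic_hoelder d hd s lam Lam M hs hs1 hlam hLam hM
  refine ⟨α, C, hα, hC, ?_⟩
  intro K f h A B hK hm hA hB hR hT
  exact H K f h A B ⟨hK.meas, hK.symm, hK.lo, hK.hi, hK.bv⟩ hm hA hB
    ⟨fun t x v => deriv (fun t => f t x v) t, fun t x v => fderiv ℝ (fun x => f t x v) x,
      fun t x v => fderiv ℝ (f t x) v, fun t x v => fderiv ℝ (fderiv ℝ (f t x)) v,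
      ⟨hR.cf, fun p hp => (hR.dt p hp).hasDerivAt, fun p hp => (hR.dx p hp).hasFDerivAt,
        fun p hp => (hR.dv p hp).hasFDerivAt, fun p hp => (hR.dvv p hp).hasFDerivAt,
        hR.ct, hR.cx, hR.cv, hR.cvv⟩, hT⟩

end Pool.Agent.Results.MP_019250_an.KineticHoelderBV
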