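import Pool.Agent.Helper34.KDB.Final

/-!
`MP_019250_an`, question Q1: the kinetic Krylov–Safonov estimate for integro-differential
equations fails.
-/

set_option autoImplicit false

namespace Pool.Agent.Results.MP_019250_an.KineticKrylovSafonovFails

open KDB KD.IV

/-- For `s = 1/(2q)` (all large `q`), all large dimensions `d` and all ellipticity constants
`0 < lam`, `M lam ≤ Lam` (`M = M(d,q)`) no Hölder estimate
`|f z - f z'| ≤ C (sup |f| + sup |h|) dl(z,z')^α` on `Q` holds for the smooth solutions of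
`∂_t f + v·∇_x f = p.v. ∫ (f(t,x,v') - f(t,x,v)) K(t,x,v,v') dv' + h` with symmetric pointwise
elliptic kernels. -/
theorem result : ∃ q0 : ℕ, ∀ q : ℕ, q0 ≤ q → ∃ d0 : ℕ, ∀ d : ℕ, d0 ≤ d → ∃ M : ℝ, 1 ≤ M ∧
    ∀ lam Lam : ℝ, 0 < lam → M * lam ≤ Lam → ∀ α C : ℝ, 0 < α →
      ∃ (K : ℝ → Ed d → Ed d → Ed d → ℝ) (f h : ℝ → Ed d → Ed d → ℝ),
        SolE (1 / (2 * q)) lam Lam 1 1 K f h ∧
        ∃ z ∈ QE d, ∃ z' ∈ QE d, C * (1 + 1) * dl (1 / (2 * q)) z z' ^ α <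
          |f z.1 z.2.1 z.2.2 - f z'.1 z'.2.1 z'.2.2| :=
  kdb_final

end Pool.Agent.Results.MP_019250_an.KineticKrylovSafonovFails
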